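import Mathlib
import Pool.Agent.X199.RFrolik2

/-!
# Successor levels of the well-founded part of the Rudin-Frolík preorder
-/

open Set Filter Topology

namespace Pool.Agent.Results.MP_e112c8_lc.LevelThree

open Pool.Agent.X199.Kunen
open Pool.Agent.Results.MP_55c7a7_lc.FreeSemigroup (RK tens mem_tens mem_bind_iff fix_mem
  eq_of_forall map_congr_mem NonPrincipal singleton_not_mem)

/-- The set of all `f̃(u)`, where `f : ω → βω` is one-to-one with discrete range and `u` and all
`f i` have rank `n`. -/
def Displayed (n : ℕ) : Set (Ultrafilter ℕ) :=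
  {w | ∃ (u : Ultrafilter ℕ) (f : ℕ → Ultrafilter ℕ), Function.Injective f ∧
    DiscreteTopology (range f) ∧ u ∈ level n ∧ (∀ i, f i ∈ level n) ∧ w = u.bind f}

theorem dwp_of_weakP {p : Ultrafilter ℕ} (hp : WeakP p) : DWP p := by
  refine ⟨free_iff.1 hp.1, fun D hD _ hDp hcl => ?_⟩
  have hne : D.Nonempty := by
    rw [nonempty_iff_ne_empty]
    rintro rfl
    simp at hcl
  obtain ⟨x, rfl⟩ := hD.exists_eq_range hne
  obtain ⟨A, hA, hAx⟩ := hp.2 x fun n => ⟨free_iff.2 (hDp _ ⟨n, rfl⟩).1, (hDp _ ⟨n, rfl⟩).2⟩
  rw [mem_closure_iff'] at hcl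
  obtain ⟨_, ⟨n, rfl⟩, hn⟩ := hcl A hA
  exact hAx n hn

theorem weakP_map_inj {p : Ultrafilter ℕ} (hp : WeakP p) {e : ℕ → ℕ}
    (he : Function.Injective e) : WeakP (p.map e) := by
  obtain ⟨e', he'⟩ := exists_perm hp.1 (univ_mem : Set.univ ∈ p) he.injOn
  rw [he']
  exact weakP_map_equiv e' hp

theorem disj_copies (p : ℕ → Ultrafilter ℕ) {e : ℕ → ℕ} (he : Function.Injective e) :
    Disj fun i => (p i).map fun j => e (Nat.pair i j) := by
  refine ⟨fun i => range fun j => e (Nat.pair i j), fun i => ?_, fun i j hij => ?_⟩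
  · rw [Ultrafilter.mem_map]
    exact univ_mem' fun j => ⟨j, rfl⟩
  · rw [Set.disjoint_left]
    rintro _ ⟨k, rfl⟩ ⟨l, hl⟩
    have := he hl
    rw [Nat.pair_eq_pair] at this
    exact hij this.1.symm

theorem tens_level {p : Ultrafilter ℕ} (hp : WeakP p) {e : ℕ → ℕ} (he : Function.Injective e) :
    (tens p p).map e ∈ level 2 := by
  rw [tens_map]
  refine level_two (disj_copies (fun _ => p) he) (dwp_of_weakP hp) fun i => ?_
  refine dwp_of_weakP (weakP_map_inj hp fun a b hab => ?_)
  have := he hab
  rw [Nat.pair_eq_pair] at this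
  exact this.2

theorem rflt_tens {u p : Ultrafilter ℕ} (hp : NonPrincipal p) : RFlt u (tens u p) := by
  refine rflt_bind (disj_copies (fun _ => p) (e := id) Function.injective_id) ?_
  refine univ_mem' fun i n hn => ?_
  have h1 : RK p (pure n) := by
    rw [← hn]
    refine ⟨fun x => (Nat.unpair x).2, ?_⟩
    rw [Ultrafilter.map_map]
    have : ((fun x => (Nat.unpair x).2) ∘ Nat.pair i) = id := by
      funext j; simp
    show p = Ultrafilter.map ((fun x => (Nat.unpair x).2) ∘ Nat.pair i) p
    rw [this, Ultrafilter.map_id]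
  obtain ⟨m, hm⟩ := rk_pure h1
  exact hp m hm

/-- `p ⊗ p ⊗ p` is strictly below `p ⊗ p ⊗ p ⊗ p`. -/
theorem rflt_four {p : Ultrafilter ℕ} (hp : NonPrincipal p) :
    RFlt (tens (tens p p) p) (tens (tens p p) (tens p p)) := by
  let g : ℕ → Ultrafilter ℕ := fun x =>
    p.map fun k => Nat.pair (Nat.unpair x).1 (Nat.pair (Nat.unpair x).2 k)
  have hg : Disj g := by
    refine ⟨fun x => range fun k => Nat.pair (Nat.unpair x).1 (Nat.pair (Nat.unpair x).2 k),
      fun x => ?_, fun x y hxy => ?_⟩
    · rw [Ultrafilter.mem_map]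
      exact univ_mem' fun j => ⟨j, rfl⟩
    · rw [Set.disjoint_left]
      rintro _ ⟨k, rfl⟩ ⟨l, hl⟩
      simp only [Nat.pair_eq_pair] at hl
      apply hxy
      rw [← Nat.pair_unpair x, ← Nat.pair_unpair y, hl.1, hl.2.1]
  have hnp : ∀ x, NonPrincipal (g x) := by
    intro x n hn
    have h1 : RK p (pure n) := by
      rw [← hn]
      refine ⟨fun y => (Nat.unpair (Nat.unpair y).2).2, ?_⟩
      simp only [g]
      rw [Ultrafilter.map_map]
      have : ((fun y => (Nat.unpair (Nat.unpair y).2).2) ∘ fun k =>
          Nat.pair (Nat.unpair x).1 (Nat.pair (Nat.unpair x).2 k)) = id := by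
        funext j; simp
      rw [this, Ultrafilter.map_id]
    obtain ⟨m, hm⟩ := rk_pure h1
    exact hp m hm
  have heq : tens (tens p p) (tens p p) = (tens (tens p p) p).bind g := by
    show (tens p p).bind (fun i => (tens p p).map (Nat.pair i)) =
      ((tens p p).bind fun i => p.map (Nat.pair i)).bind g
    rw [bind_assoc]
    congr 1
    funext i
    rw [tens_map, ← bind_pure, bind_assoc]
    congr 1
    funext j
    symm
    apply eq_of_forall
    intro s hs
    rw [mem_bind_iff] at hs
    have h2 : s ∈ g (Nat.pair i j) := hs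
    simp only [g, Nat.unpair_pair] at h2
    exact h2
  rw [heq]
  exact rflt_bind hg (univ_mem' hnp)

/-- **Main theorem.** (1) There is an ultrafilter of the form `f̃(u)`, where `f` is one-to-one with
discrete range and `u` and all `f i` have rank two in the well-founded part of the Rudin-Frolík
preorder, which does not have rank three. (2) So it is not true that for all `n > 0` the ultrafilters
of rank `n + 1` are exactly those of the form `f̃(u)` with `u` and all `f i` of rank `n`.  (3) If
`f` is one-to-one with discrete range and `u` and all `f i` are discretely weak P-points, then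
`f̃(u)` has rank two. -/
theorem result :
    (∃ w ∈ Displayed 2, w ∉ level 3) ∧
    (¬ ∀ n : ℕ, 0 < n → level ((n + 1 : ℕ) : Ordinal.{0}) = Displayed n) ∧
    ∀ (u : Ultrafilter ℕ) (f : ℕ → Ultrafilter ℕ), Function.Injective f →
      DiscreteTopology (range f) → DWP u → (∀ i, DWP (f i)) → u.bind f ∈ level 2 := by
  have h1 : ∃ w ∈ Displayed 2, w ∉ level 3 := by
    obtain ⟨p, -, hp, -, -, -⟩ := exists_incomparable
    have hnp := (dwp_of_weakP hp).1
    refine ⟨tens (tens p p) (tens p p), ⟨tens p p, fun i => (tens p p).map (Nat.pair i), ?_, ?_,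
      ?_, ?_, rfl⟩, ?_⟩
    · exact (disj_iff.2 (disj_copies (fun _ => tens p p) (e := id) Function.injective_id)).1
    · exact (disj_iff.2 (disj_copies (fun _ => tens p p) (e := id) Function.injective_id)).2
    · have := tens_level hp (e := id) Function.injective_id
      rw [Ultrafilter.map_id] at this
      exact_mod_cast this
    · intro i
      have := tens_level hp (e := Nat.pair i) fun a b hab => (Nat.pair_eq_pair.1 hab).2
      exact_mod_cast this
    · rintro ⟨hW, hr⟩
      have hlt1 := rflt_four hnp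
      have hW1 := mem_WF_of_lt hlt1 hW
      have hlt2 : RFlt (tens p p) (tens (tens p p) p) := rflt_tens hnp
      have hW2 := mem_WF_of_lt hlt2 hW1
      obtain ⟨hW3, hr3⟩ : tens p p ∈ level 2 := by
        have := tens_level hp (e := id) Function.injective_id
        rwa [Ultrafilter.map_id] at this
      have e1 := rho_lt hlt1 hW hW1
      have e2 := rho_lt hlt2 hW1 hW2
      have e3 : rho (tens p p) hW2 = 2 := hr3
      rw [hr] at e1
      rw [e3] at e2
      have e4 : (3 : Ordinal.{0}) ≤ rho (tens (tens p p) p) hW1 := by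
        have := Order.succ_le_of_lt e2
        rw [Order.succ_eq_add_one] at this
        calc (3 : Ordinal.{0}) = 2 + 1 := by norm_num
          _ ≤ _ := this
      exact absurd (lt_of_le_of_lt e4 e1) (lt_irrefl _)
  refine ⟨h1, fun h => ?_, ?_⟩
  · obtain ⟨w, hw, hw'⟩ := h1
    apply hw'
    have := h 2 (by norm_num)
    rw [← this] at hw
    exact_mod_cast hw
  · intro u f hf hd hu hfi
    exact level_two (disj_iff.1 ⟨hf, hd⟩) hu hfi

end Pool.Agent.Results.MP_e112c8_lc.LevelThree
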